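import Pool.Agent.Helper23.XT.Basic

namespace Pool.Agent.Helper39.XT

open Pool.Agent.Helper23.XT

theorem norm_basis {K Γ : Type*} [Field K] [LinearOrderedCommGroupWithZero Γ]
    {v : Valuation K Γ} (hv : Extremal v) {p m : ℕ} (hp : 0 < p) (b : Fin m → K)
    (hb : ∀ c : Fin m → K, ∑ j, b j * c j ^ p = 0 → c = 0) :
    ∃ κ : K, κ ≠ 0 ∧ ∀ c : Fin m → K, ∀ j, v (κ * c j ^ p) ≤ v (∑ j, b j * c j ^ p) := by
  classical
  have h1 : ∀ j0 : Fin m, ∃ k : K, k ≠ 0 ∧ ∀ c : Fin m → K, c j0 = 1 → (∀ j, v (c j) ≤ 1) →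
      v k ≤ v (∑ j, b j * c j ^ p) := by
    intro j0
    obtain ⟨a, ha, hmin⟩ := hv m (MvPolynomial.C (b j0) +
      ∑ j ∈ Finset.univ.erase j0, MvPolynomial.C (b j) * MvPolynomial.X j ^ p)
    have hev : ∀ c : Fin m → K, MvPolynomial.eval c (MvPolynomial.C (b j0) +
        ∑ j ∈ Finset.univ.erase j0, MvPolynomial.C (b j) * MvPolynomial.X j ^ p) =
        ∑ j, b j * (Function.update c j0 1) j ^ p := by
      intro c
      rw [← Finset.add_sum_erase _ _ (Finset.mem_univ j0)]
      simp only [map_add, map_sum, map_mul, map_pow, MvPolynomial.eval_C, MvPolynomial.eval_X,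
        Function.update_self, one_pow, mul_one]
      congr 1
      refine Finset.sum_congr rfl fun j hj => ?_
      rw [Function.update_of_ne (Finset.ne_of_mem_erase hj)]
    refine ⟨∑ j, b j * (Function.update a j0 1) j ^ p, fun h0 => ?_, fun c hc0 hc => ?_⟩
    · have h2 := congrFun (hb _ h0) j0
      rw [Function.update_self, Pi.zero_apply] at h2
      exact one_ne_zero h2
    · have h2 := hmin c hc
      rw [hev, hev] at h2
      rwa [← hc0, Function.update_eq_self, hc0] at h2
  choose k hk0 hk using h1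
  rcases Nat.eq_zero_or_pos m with rfl | hm
  · exact ⟨1, one_ne_zero, fun c j => j.elim0⟩
  have : Nonempty (Fin m) := ⟨⟨0, hm⟩⟩
  obtain ⟨i0, hi0⟩ := Finite.exists_min (fun j => v (k j))
  refine ⟨k i0, hk0 i0, fun c j => ?_⟩
  obtain ⟨j0, hj0⟩ := Finite.exists_max (fun j => v (c j))
  rcases eq_or_ne (c j0) 0 with hz | hz
  · have h3 : c j = 0 := by
      have := hj0 j
      rw [hz, map_zero, le_zero_iff, Valuation.zero_iff] at this
      exact this
    rw [h3, zero_pow hp.ne', mul_zero, map_zero]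
    exact zero_le
  · have hv0 : 0 < v (c j0) := zero_lt_iff.2 ((Valuation.ne_zero_iff v).2 hz)
    have h3 := hk j0 (fun j => c j / c j0) (div_self hz) (fun j => by
      rw [map_div₀]
      exact (div_le_one₀ hv0).2 (hj0 j))
    have h4 : ∑ j, b j * c j ^ p = c j0 ^ p * ∑ j, b j * (c j / c j0) ^ p := by
      rw [Finset.mul_sum]
      refine Finset.sum_congr rfl fun j _ => ?_
      rw [div_pow]
      field_simp
    rw [h4, map_mul, map_mul, mul_comm (v (k i0))]
    refine mul_le_mul' ?_ ((hi0 j0).trans h3)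
    rw [map_pow, map_pow]
    exact pow_le_pow_left₀ zero_le (hj0 j) p

end Pool.Agent.Helper39.XT
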