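import Pool.Agent.Helper1.XT.Ultra1
import Pool.Agent.Helper39.XT.Norm
import Pool.Agent.Helper93.XT.MacAlg

/-!
# Mac Lane's condition for the residue field of the ring `BU`
-/

namespace Pool.Agent.Helper39.XT

open Filter Pool.Agent.Helper23.XT Pool.Agent.Helper1.XT
  Pool.Agent.Helper93.XT

theorem coe_sum_germ {K ι : Type*} [Field K] (U : Ultrafilter ι) {m : ℕ} (b : Fin m → K)
    (a : Fin m → ι → K) (p : ℕ) :
    (∑ j, (((fun _ => b j : ι → K) : (U : Filter ι).Germ K)) *
        (a j : (U : Filter ι).Germ K) ^ p) =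
      ((fun i => ∑ j, b j * a j i ^ p : ι → K) : (U : Filter ι).Germ K) := by
  have h1 : (fun i => ∑ j, b j * a j i ^ p : ι → K) =
      ∑ j, ((fun _ => b j : ι → K) * (a j) ^ p) := by
    funext i
    simp [Finset.sum_apply]
  rw [h1]
  have h2 := map_sum (Germ.coeRingHom (R := K) (U : Filter ι))
    (fun j => (fun _ => b j : ι → K) * (a j) ^ p) Finset.univ
  exact h2.symm

theorem maclane_BU {K Γ : Type*} [Field K] [LinearOrderedCommGroupWithZero Γ]
    {ι : Type*} (U : Ultrafilter ι) {v : Valuation K Γ} (hv : Extremal v) :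
    MacLane K (IsLocalRing.ResidueField (BU U v)) := by
  refine maclane_of_forms fun p hp _ m b hb G hG => ?_
  obtain ⟨κ, hκ, hn⟩ := norm_basis hv hp.pos b hb
  -- lifts
  choose c hc using fun j => IsLocalRing.residue_surjective (G j)
  have hrep : ∀ x : (U : Filter ι).Germ K, ∃ a : ι → K, (a : (U : Filter ι).Germ K) = x :=
    fun x => Quotient.exists_rep x
  choose a ha using fun j => hrep (c j : (U : Filter ι).Germ K)
  have hsum : ∑ j, algebraMap K (BU U v) (b j) * c j ^ p ∈ IsLocalRing.maximalIdeal (BU U v) := by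
    rw [← IsLocalRing.residue_eq_zero_iff, map_sum]
    refine Eq.trans (Finset.sum_congr rfl fun j _ => ?_) hG
    rw [map_mul, map_pow, hc j]
    rfl
  have hcoe : ((∑ j, algebraMap K (BU U v) (b j) * c j ^ p : BU U v) : (U : Filter ι).Germ K) =
      ((fun i => ∑ j, b j * a j i ^ p : ι → K) : (U : Filter ι).Germ K) := by
    rw [← coe_sum_germ]
    push_cast
    refine Finset.sum_congr rfl fun j _ => ?_
    rw [algebraMap_BU, ha j]
  have hmem : ((fun i => ∑ j, b j * a j i ^ p : ι → K) : (U : Filter ι).Germ K) ∈ BU U v := by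
    rw [← hcoe]; exact Subtype.property _
  have hsum' : (⟨((fun i => ∑ j, b j * a j i ^ p : ι → K) : (U : Filter ι).Germ K), hmem⟩ : BU U v)
      ∈ IsLocalRing.maximalIdeal (BU U v) := by
    have : (⟨((fun i => ∑ j, b j * a j i ^ p : ι → K) : (U : Filter ι).Germ K), hmem⟩ : BU U v)
        = ∑ j, algebraMap K (BU U v) (b j) * c j ^ p := Subtype.ext hcoe.symm
    rw [this]; exact hsum
  rw [mem_maximalIdeal_BU] at hsum'
  funext j
  rw [Pi.zero_apply, ← hc j, IsLocalRing.residue_eq_zero_iff]
  -- c j ^ p in the maximal ideal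
  have hcp : c j ^ p ∈ IsLocalRing.maximalIdeal (BU U v) := by
    have hm : ((fun i => a j i ^ p : ι → K) : (U : Filter ι).Germ K) =
        ((c j ^ p : BU U v) : (U : Filter ι).Germ K) := by
      rw [SubmonoidClass.coe_pow, ← ha j]
      rfl
    have hm2 : ((fun i => a j i ^ p : ι → K) : (U : Filter ι).Germ K) ∈ BU U v := by
      rw [hm]; exact Subtype.property _
    have hm3 : (⟨((fun i => a j i ^ p : ι → K) : (U : Filter ι).Germ K), hm2⟩ : BU U v) = c j ^ p :=
      Subtype.ext hm
    rw [← hm3, mem_maximalIdeal_BU]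
    intro μ hμ
    filter_upwards [hsum' (κ * μ) (mul_ne_zero hκ hμ)] with i hi
    have h1 := (hn (fun j => a j i) j).trans_lt hi
    rw [map_mul, map_mul] at h1
    exact lt_of_mul_lt_mul_left' h1
  exact (IsLocalRing.maximalIdeal.isMaximal (BU U v)).isPrime.mem_of_pow_mem p hcp

end Pool.Agent.Helper39.XT
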